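import Mathlib

/-!
Project HN, row PIV, first part: the absolute value attached to a prime element of a factorial ring.
-/

set_option autoImplicit false

namespace Pool.Agent.Helper25.HN

/-- the valuation of a factorial ring attached to a prime element -/
noncomputable def val {A : Type} [CommRing A] [IsDomain A] [UniqueFactorizationMonoid A]
    (π : A) (hπ : Prime π) : Valuation A NNReal :=
  letI := Classical.decEq A
  { toFun := fun a => if a = 0 then 0 else (1 / 2 : NNReal) ^ multiplicity π a
    map_zero' := by simp
    map_one' := by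
      have h : ¬ π ∣ 1 := hπ.not_dvd_one
      rw [if_neg one_ne_zero, multiplicity_eq_zero.2 h, pow_zero]
    map_mul' := by
      intro a b
      by_cases ha : a = 0
      · simp [ha]
      by_cases hb : b = 0
      · simp [hb]
      rw [if_neg ha, if_neg hb, if_neg (mul_ne_zero ha hb), multiplicity_mul hπ
        (FiniteMultiplicity.of_prime_left hπ (mul_ne_zero ha hb)), pow_add]
    map_add_le_max' := by
      intro a b
      by_cases ha : a = 0
      · simp [ha]
      by_cases hb : b = 0
      · simp [hb]
      by_cases hab : a + b = 0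
      · simp [hab]
      rw [if_neg ha, if_neg hb, if_neg hab]
      have h1 : (1 / 2 : NNReal) ≤ 1 := by
        rw [div_le_one (by norm_num)]; norm_num
      have fa := FiniteMultiplicity.of_prime_left hπ ha
      have fb := FiniteMultiplicity.of_prime_left hπ hb
      have fab := FiniteMultiplicity.of_prime_left hπ hab
      rcases le_total (multiplicity π a) (multiplicity π b) with h | h
      · refine le_max_of_le_left (pow_le_pow_of_le_one zero_le h1 ?_)
        rw [← fab.pow_dvd_iff_le_multiplicity]
        exact dvd_add (fa.pow_dvd_iff_le_multiplicity.2 le_rfl)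
          (fb.pow_dvd_iff_le_multiplicity.2 h)
      · refine le_max_of_le_right (pow_le_pow_of_le_one zero_le h1 ?_)
        rw [← fab.pow_dvd_iff_le_multiplicity]
        exact dvd_add (fa.pow_dvd_iff_le_multiplicity.2 h)
          (fb.pow_dvd_iff_le_multiplicity.2 le_rfl) }

theorem val_ne {A : Type} [CommRing A] [IsDomain A] [UniqueFactorizationMonoid A]
    (π : A) (hπ : Prime π) {a : A} (ha : a ≠ 0) :
    val π hπ a = (1 / 2 : NNReal) ^ multiplicity π a := by
  change (letI := Classical.decEq A; if a = 0 then (0 : NNReal)
    else (1 / 2 : NNReal) ^ multiplicity π a) = _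
  rw [if_neg ha]

/-- the `π`-adic absolute value of the field of fractions -/
theorem adic {A K : Type} [CommRing A] [IsDomain A] [UniqueFactorizationMonoid A] [Field K]
    (φ : A →+* K) (hφ : Function.Injective φ)
    (hK : ∀ z : K, ∃ p q, q ≠ 0 ∧ z = φ p / φ q) (π : A) (hπ : Prime π) :
    ∃ ν : AbsoluteValue K ℝ, (∀ a b, ν (a + b) ≤ max (ν a) (ν b)) ∧ (∀ a, ν (φ a) ≤ 1) ∧
      (∀ a, ¬ π ∣ a → ν (φ a) = 1) ∧ ν (φ π) = 1 / 2 := by
  letI : Algebra A K := φ.toAlgebra
  have hmap : ∀ a, algebraMap A K a = φ a := fun _ => rfl
  haveI : FaithfulSMul A K := (faithfulSMul_iff_algebraMap_injective A K).2 hφ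
  haveI : IsFractionRing A K := by
    refine IsFractionRing.of_field A K fun z => ?_
    obtain ⟨p, q, _, h⟩ := hK z
    exact ⟨p, q, h⟩
  have hS : nonZeroDivisors A ≤ (val π hπ).supp.primeCompl := by
    intro a ha hv
    have ha0 : a ≠ 0 := nonZeroDivisors.ne_zero ha
    have h2 : val π hπ a = 0 := hv
    rw [val_ne π hπ ha0] at h2
    exact absurd h2 (pow_ne_zero _ (by norm_num))
  let V : Valuation K NNReal := (val π hπ).extendToLocalization hS K
  have hV : ∀ a, V (φ a) = val π hπ a := fun a =>
    Valuation.extendToLocalization_apply_map_apply (val π hπ) hS K a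
  refine ⟨{ toFun := fun z => (V z : ℝ)
            map_mul' := fun x y => by simp
            nonneg' := fun x => NNReal.coe_nonneg _
            eq_zero' := fun x => by simp
            add_le' := fun x y => ?_ }, ?_, ?_, ?_, ?_⟩
  · have h := V.map_add x y
    have h2 : max (V x) (V y) ≤ V x + V y := max_le le_self_add le_add_self
    exact_mod_cast h.trans h2
  · intro a b
    have h := V.map_add a b
    exact_mod_cast h
  · intro a
    change ((V (φ a) : NNReal) : ℝ) ≤ 1
    rw [hV]
    by_cases ha : a = 0
    · rw [ha, map_zero]; simp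
    · rw [val_ne π hπ ha]
      push_cast
      exact pow_le_one₀ (by norm_num) (by norm_num)
  · intro a ha
    change ((V (φ a) : NNReal) : ℝ) = 1
    have ha0 : a ≠ 0 := fun h => ha (h ▸ dvd_zero π)
    rw [hV, val_ne π hπ ha0, multiplicity_eq_zero.2 ha]
    simp
  · change ((V (φ π) : NNReal) : ℝ) = 1 / 2
    rw [hV, val_ne π hπ hπ.ne_zero]
    have : multiplicity π π = 1 := by simp
    rw [this]
    simp

end Pool.Agent.Helper25.HN
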