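import Pool.Agent.Helper71.HN.SheetE
import Pool.Agent.Helper9.MTK.Fin

/-!
Project HE (MP_2a8cc2_nt), row HCO: heights of sums, products, inverses and of the coefficients of a
Taylor expansion.
-/

set_option autoImplicit false

namespace Pool.Agent.Helper25.HN

open Polynomial Finset Height Pool.Agent.Helper71.HE

theorem HCO : ST_HCO := by
  intro K _ _ h hh
  have hlog0 := Pool.Agent.Helper9.MTK.log_h K h hh
  obtain ⟨D, hD⟩ : ∃ D : ℝ, D = (Module.finrank ℚ K : ℝ) := ⟨_, rfl⟩
  have hD0 : 0 < D := by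
    rw [hD]
    exact_mod_cast Module.finrank_pos
  have hTW : ((totalWeight K : ℕ) : ℝ) = D := by
    rw [NumberField.totalWeight_eq_finrank, hD]
  have hl : ∀ a : K, logHeight₁ a = h a * D := by
    intro a
    rw [logHeight₁_eq_log_mulHeight₁, hlog0 a, hD]
  have hh0 : ∀ a : K, 0 ≤ h a := by
    intro a
    have h1 := zero_le_logHeight₁ a
    rw [hl] at h1
    exact nonneg_of_mul_nonneg_left h1 hD0
  have h00 : h 0 = 0 := by
    have h1 : logHeight₁ (0 : K) = 0 := logHeight₁_zero
    rw [hl] at h1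
    rcases mul_eq_zero.mp h1 with h2 | h2
    · exact h2
    · exact absurd h2 hD0.ne'
  have hmul : ∀ a b : K, h (a * b) ≤ h a + h b := by
    intro a b
    have h1 := logHeight₁_mul_le a b
    rw [hl, hl, hl, ← add_mul] at h1
    exact le_of_mul_le_mul_right h1 hD0
  have hpow : ∀ (a : K) (n : ℕ), h (a ^ n) = n * h a := by
    intro a n
    have h1 := logHeight₁_pow a n
    rw [hl, hl, ← mul_assoc] at h1
    exact mul_right_cancel₀ hD0.ne' h1
  have hsum : ∀ (n : ℕ) (f : ℕ → K), h (∑ i ∈ range n, f i) ≤ Real.log n + ∑ i ∈ range n, h (f i) := by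
    intro n f
    have h1 := logHeight₁_sum_le (range n) f
    rw [hl, hTW, card_range] at h1
    have h2 : ∑ a ∈ range n, logHeight₁ (f a) = (∑ a ∈ range n, h (f a)) * D := by
      rw [sum_mul]
      exact sum_congr rfl fun a _ => hl (f a)
    rw [h2, mul_comm D, ← add_mul] at h1
    exact le_of_mul_le_mul_right h1 hD0
  refine ⟨?_, hmul, ?_, ?_⟩
  · intro a b
    have h1 := logHeight₁_add_le a b
    rw [hl, hl, hl, hTW] at h1
    have h2 : h (a + b) * D ≤ (Real.log 2 + h a + h b) * D := by
      calc h (a + b) * D ≤ D * Real.log 2 + h a * D + h b * D := h1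
        _ = (Real.log 2 + h a + h b) * D := by ring
    have h3 := le_of_mul_le_mul_right h2 hD0
    have h4 : Real.log 2 ≤ 1 := by
      have h5 := Real.log_le_sub_one_of_pos (show (0 : ℝ) < 2 by norm_num)
      linarith
    linarith
  · intro a
    have h1 := logHeight₁_inv a
    rw [hl, hl] at h1
    exact mul_right_cancel₀ hD0.ne' h1
  · intro d κ
    obtain ⟨M, hM⟩ : ∃ M : ℝ, M = ∑ i ∈ range (d + 1), ∑ j ∈ range (d + 1),
        h ((i.choose j : ℕ) : K) := ⟨_, rfl⟩
    have hM0 : 0 ≤ M := by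
      rw [hM]
      exact sum_nonneg fun i _ => sum_nonneg fun j _ => hh0 _
    have hML : ∀ i j : ℕ, i ≤ d → j ≤ d → h ((i.choose j : ℕ) : K) ≤ M := by
      intro i j hi hj
      rw [hM]
      calc h ((i.choose j : ℕ) : K) ≤ ∑ j ∈ range (d + 1), h ((i.choose j : ℕ) : K) :=
            single_le_sum (f := fun j => h ((i.choose j : ℕ) : K)) (fun j _ => hh0 _)
              (mem_range.mpr (Nat.lt_succ_of_le hj))
        _ ≤ _ := single_le_sum
              (f := fun i => ∑ j ∈ range (d + 1), h ((i.choose j : ℕ) : K))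
              (fun i _ => sum_nonneg fun j _ => hh0 _) (mem_range.mpr (Nat.lt_succ_of_le hi))
    have hL0 : 0 ≤ Real.log ((d + 1 : ℕ) : ℝ) := Real.log_natCast_nonneg _
    refine ⟨Real.log ((d + 1 : ℕ) : ℝ) + (d + 1) * (M + 1 + d * |κ|) + 1, ?_, ?_⟩
    · have h1 : 0 ≤ ((d : ℝ) + 1) * (M + 1 + d * |κ|) := by positivity
      linarith
    intro F e H hF hH hc he j
    have hterm : ∀ i ∈ range (d + 1), h (((hasseDeriv j F).coeff i) * e ^ i) ≤
        M + H + d * (|κ| * (H + 1)) := by
      intro i hi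
      have hi' : i ≤ d := Nat.lt_succ_iff.mp (mem_range.mp hi)
      have hk0 : 0 ≤ |κ| * (H + 1) := mul_nonneg (abs_nonneg _) (by linarith)
      have hb0 : 0 ≤ M + H + d * (|κ| * (H + 1)) := by positivity
      by_cases hij : i + j ≤ d
      · rw [hasseDeriv_coeff]
        have h1 := hmul ((((i + j).choose j : ℕ) : K) * F.coeff (i + j)) (e ^ i)
        have h2 := hmul (((i + j).choose j : ℕ) : K) (F.coeff (i + j))
        have h3 := hML (i + j) j hij (by omega)
        have h4 := hc (i + j)
        rw [hpow] at h1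
        have h5 : h e ≤ |κ| * (H + 1) := by
          refine he.trans ?_
          exact mul_le_mul_of_nonneg_right (le_abs_self κ) (by linarith)
        have h6 : (i : ℝ) * h e ≤ d * (|κ| * (H + 1)) := by
          have h7 : (i : ℝ) ≤ d := by exact_mod_cast hi'
          exact mul_le_mul h7 h5 (hh0 e) (by positivity)
        linarith
      · have h1 : F.coeff (i + j) = 0 := by
          refine coeff_eq_zero_of_natDegree_lt ?_
          omega
        rw [hasseDeriv_coeff, h1, mul_zero, zero_mul, h00]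
        exact hb0
    have hdeg : (hasseDeriv j F).natDegree < d + 1 := by
      have h1 := natDegree_hasseDeriv_le F j
      omega
    rw [taylor_coeff, eval_eq_sum_range' hdeg]
    have h1 := hsum (d + 1) (fun i => ((hasseDeriv j F).coeff i) * e ^ i)
    have h2 : ∑ i ∈ range (d + 1), h (((hasseDeriv j F).coeff i) * e ^ i) ≤
        (d + 1 : ℕ) * (M + H + d * (|κ| * (H + 1))) := by
      calc ∑ i ∈ range (d + 1), h (((hasseDeriv j F).coeff i) * e ^ i)
          ≤ ∑ i ∈ range (d + 1), (M + H + d * (|κ| * (H + 1))) := sum_le_sum hterm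
        _ = _ := by rw [sum_const, card_range, nsmul_eq_mul]
    refine h1.trans ((add_le_add le_rfl h2).trans ?_)
    have h3 : M + H + d * (|κ| * (H + 1)) ≤ (M + 1 + d * |κ|) * (H + 1) := by
      nlinarith [mul_nonneg hM0 hH]
    have h4 : ((d + 1 : ℕ) : ℝ) * (M + H + d * (|κ| * (H + 1))) ≤
        (d + 1) * ((M + 1 + d * |κ|) * (H + 1)) := by
      push_cast
      exact mul_le_mul_of_nonneg_left h3 (by positivity)
    have h5 : Real.log ((d + 1 : ℕ) : ℝ) ≤ Real.log ((d + 1 : ℕ) : ℝ) * (H + 1) := by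
      nlinarith [mul_nonneg hL0 hH]
    nlinarith [h4, h5]

end Pool.Agent.Helper25.HN
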