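import Pool.Agent.Helper71.HN.SheetZ

/-!
Row HTK of project HZ (MP_2a8cc2_nt): elementary facts about the height of a number field.
-/

set_option autoImplicit false

namespace Pool.Agent.Helper25.HZ

open Height Finset Pool.Agent.Helper71.HZ

theorem log_h (K : Type) [Field K] [NumberField K] (h : K → ℝ) (hh : ∀ a : K, h a =
    ((∑ w : NumberField.InfinitePlace K, (w.mult : ℝ) * Real.log (max 1 (w a))) +
      ∑ᶠ v : NumberField.FinitePlace K, Real.log (max 1 (v a))) /
      (Module.finrank ℚ K : ℝ)) (a : K) :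
    Real.log (mulHeight₁ a) = (Module.finrank ℚ K : ℝ) * h a := by
  have hD : (0 : ℝ) < (Module.finrank ℚ K : ℝ) := by exact_mod_cast Module.finrank_pos
  have h1 := NumberField.logHeight₁_eq a
  rw [Height.logHeight₁_eq_log_mulHeight₁] at h1
  have hp : ∀ x : ℝ, 0 ≤ x → Real.posLog x = Real.log (max 1 x) := by
    intro x hx
    exact Real.posLog_eq_log_max_one hx
  rw [h1, hh, mul_div_cancel₀ _ hD.ne']
  congr 1
  · refine Finset.sum_congr rfl fun w _ => ?_
    rw [hp _ (apply_nonneg w a)]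
  · refine finsum_congr fun v => ?_
    rw [hp _ (apply_nonneg v a)]

section

variable {K : Type} [Field K] [NumberField K]

theorem fin_le_one (v : NumberField.FinitePlace K) {a : K} (ha : IsIntegral ℤ a) : v a ≤ 1 := by
  obtain ⟨b, hb⟩ : ∃ b : NumberField.RingOfIntegers K, (b : K) = a := ⟨⟨a, ha⟩, rfl⟩
  rw [← NumberField.FinitePlace.norm_embedding_eq, ← hb]
  exact NumberField.FinitePlace.norm_le_one K _ b

theorem emb_le_height (f : K →+* ℂ) (a : K) : ‖f a‖ ≤ mulHeight₁ a := by
  classical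
  rw [NumberField.mulHeight₁_eq]
  obtain ⟨w, hw⟩ : ∃ w : NumberField.InfinitePlace K, w = NumberField.InfinitePlace.mk f :=
    ⟨_, rfl⟩
  have h1 : ‖f a‖ = w a := by
    rw [hw]
    rfl
  rw [h1]
  have h2 : (1 : ℝ) ≤ ∏ᶠ v : NumberField.FinitePlace K, max (v a) 1 :=
    one_le_finprod fun v => le_max_right _ _
  have h3 : w a ≤ ∏ v : NumberField.InfinitePlace K, max (v a) 1 ^ v.mult := by
    rw [← Finset.mul_prod_erase Finset.univ _ (Finset.mem_univ w)]
    have h4 : (1 : ℝ) ≤ ∏ v ∈ Finset.univ.erase w, max (v a) 1 ^ v.mult := by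
      calc (1 : ℝ) = ∏ _v ∈ Finset.univ.erase w, (1 : ℝ) := Finset.prod_const_one.symm
        _ ≤ _ := Finset.prod_le_prod (fun _ _ => zero_le_one) fun v _ =>
          one_le_pow₀ (le_max_right _ _)
    have h5 : w a ≤ max (w a) 1 ^ w.mult :=
      (le_max_left _ _).trans (le_self_pow₀ (le_max_right _ _) NumberField.InfinitePlace.mult_ne_zero)
    have h6 : 0 ≤ w a := apply_nonneg w a
    nlinarith
  have h6 : 0 ≤ w a := apply_nonneg w a
  nlinarith

/-- the archimedean part of the height, as a sum over the embeddings -/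
theorem sum_emb (a : K) : ∑ w : NumberField.InfinitePlace K, (w.mult : ℝ) * Real.log (max (w a) 1) =
    ∑ τ : K →+* ℂ, Real.log (max 1 ‖τ a‖) := by
  classical
  rw [← Finset.sum_fiberwise Finset.univ NumberField.InfinitePlace.mk
    (fun τ : K →+* ℂ => Real.log (max 1 ‖τ a‖))]
  refine Finset.sum_congr rfl fun w _ => ?_
  have h1 : ∀ τ ∈ Finset.univ.filter (fun τ : K →+* ℂ => NumberField.InfinitePlace.mk τ = w),
      Real.log (max 1 ‖τ a‖) = Real.log (max (w a) 1) := by
    intro τ hτ
    rw [Finset.mem_filter] at hτ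
    have h2 : ‖τ a‖ = w a := by
      rw [← hτ.2]
      rfl
    rw [h2, max_comm]
  rw [Finset.sum_congr rfl h1, Finset.sum_const, nsmul_eq_mul]
  have h3 : (Finset.univ.filter (fun τ : K →+* ℂ => NumberField.InfinitePlace.mk τ = w)).card =
      w.mult := by
    rw [← NumberField.InfinitePlace.card_filter_mk_eq w]
  rw [h3]

/-- the height of an algebraic integer has only an archimedean part -/
theorem int_height {a : K} (ha : IsIntegral ℤ a) :
    mulHeight₁ a = ∏ v : NumberField.InfinitePlace K, max (v a) 1 ^ v.mult := by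
  rw [NumberField.mulHeight₁_eq]
  have h1 : ∏ᶠ v : NumberField.FinitePlace K, max (v a) 1 = 1 :=
    finprod_eq_one_of_forall_eq_one fun v => max_eq_right (fin_le_one v ha)
  rw [h1, mul_one]

theorem log_int_height {a : K} (ha : IsIntegral ℤ a) :
    Real.log (mulHeight₁ a) = ∑ τ : K →+* ℂ, Real.log (max 1 ‖τ a‖) := by
  rw [int_height ha, ← sum_emb, Real.log_prod]
  · refine Finset.sum_congr rfl fun w _ => ?_
    rw [Real.log_pow]
  · intro w _
    have : (0 : ℝ) < max (w a) 1 := lt_max_of_lt_right one_pos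
    positivity

theorem log_nat_height {m : ℕ} (hm : m ≠ 0) :
    Real.log (mulHeight₁ (m : K)) = (Module.finrank ℚ K : ℝ) * Real.log m := by
  classical
  have hm1 : (1 : ℝ) ≤ m := by exact_mod_cast Nat.one_le_iff_ne_zero.2 hm
  rw [log_int_height (isIntegral_natCast m)]
  have h1 : ∀ τ ∈ (Finset.univ : Finset (K →+* ℂ)), Real.log (max 1 ‖τ (m : K)‖) =
      Real.log m := by
    intro τ _
    rw [map_natCast, Complex.norm_natCast, max_eq_right hm1]
  rw [Finset.sum_congr rfl h1, Finset.sum_const, nsmul_eq_mul, Finset.card_univ,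
    NumberField.Embeddings.card K ℂ]

end

theorem HTK : ST_HTK := by
  intro K _ _ h hh
  have hlog := log_h K h hh
  have hn : (1 : ℝ) ≤ (Module.finrank ℚ K : ℝ) := by
    have h0 : 0 < Module.finrank ℚ K := Module.finrank_pos
    exact_mod_cast h0
  have hexp : ∀ a : K, mulHeight₁ a = Real.exp (Module.finrank ℚ K * h a) := by
    intro a
    rw [← hlog a, Real.exp_log (lt_of_lt_of_le one_pos (one_le_mulHeight₁ a))]
  have hnn : ∀ a : K, 0 ≤ h a := by
    intro a
    have h1 := Real.log_nonneg (one_le_mulHeight₁ a)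
    rw [hlog] at h1
    by_contra hcon
    push Not at hcon
    nlinarith
  refine ⟨hnn, ?_, ?_, ?_⟩
  · intro a
    obtain ⟨n, h1, h2, h3⟩ := NumberField.exists_nat_le_mulHeight₁ a
    exact ⟨n, h1, by rw [← hexp a]; exact h2, h3⟩
  · intro a τ
    rw [← hexp a]
    exact emb_le_height τ a
  · intro a m hm ha
    have hm0 : (m : K) ≠ 0 := by exact_mod_cast hm
    have hm1 : (1 : ℝ) ≤ m := by exact_mod_cast Nat.one_le_iff_ne_zero.2 hm
    have hlm : 0 ≤ Real.log m := Real.log_nonneg hm1
    have h1 : a = ((m : K) * a) * (m : K)⁻¹ := by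
      field_simp
    have h2 : mulHeight₁ a ≤ mulHeight₁ ((m : K) * a) * mulHeight₁ (m : K) := by
      calc mulHeight₁ a = mulHeight₁ (((m : K) * a) * (m : K)⁻¹) := by rw [← h1]
        _ ≤ mulHeight₁ ((m : K) * a) * mulHeight₁ ((m : K)⁻¹) := mulHeight₁_mul_le _ _
        _ = _ := by rw [mulHeight₁_inv]
    have hp1 : 0 < mulHeight₁ a := lt_of_lt_of_le one_pos (one_le_mulHeight₁ a)
    have hp2 : 0 < mulHeight₁ ((m : K) * a) := lt_of_lt_of_le one_pos (one_le_mulHeight₁ _)
    have hp3 : 0 < mulHeight₁ (m : K) := lt_of_lt_of_le one_pos (one_le_mulHeight₁ _)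
    have h3 := Real.log_le_log hp1 h2
    rw [Real.log_mul hp2.ne' hp3.ne', log_int_height ha, log_nat_height hm, hlog] at h3
    have h4 : ∀ τ ∈ (Finset.univ : Finset (K →+* ℂ)), Real.log (max 1 ‖τ ((m : K) * a)‖) ≤
        Real.log m + Real.log (max 1 ‖τ a‖) := by
      intro τ _
      have hmx : (0 : ℝ) < max 1 ‖τ a‖ := lt_max_of_lt_left one_pos
      rw [← Real.log_mul (by positivity) hmx.ne']
      refine Real.log_le_log (lt_max_of_lt_left one_pos) (max_le ?_ ?_)
      · calc (1 : ℝ) = 1 * 1 := (one_mul 1).symm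
          _ ≤ m * max 1 ‖τ a‖ := mul_le_mul hm1 (le_max_left _ _) zero_le_one (by positivity)
      · rw [map_mul, map_natCast, norm_mul, Complex.norm_natCast]
        exact mul_le_mul_of_nonneg_left (le_max_right _ _) (by positivity)
    have h5 := Finset.sum_le_sum h4
    rw [Finset.sum_add_distrib, Finset.sum_const, nsmul_eq_mul, Finset.card_univ,
      NumberField.Embeddings.card K ℂ] at h5
    have h6 : 0 ≤ ∑ τ : K →+* ℂ, Real.log (max 1 ‖τ a‖) :=
      Finset.sum_nonneg fun τ _ => Real.log_nonneg (le_max_left _ _)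
    have h7 : (Module.finrank ℚ K : ℝ) * h a ≤ (Module.finrank ℚ K : ℝ) *
        (2 * Real.log m + ∑ τ : K →+* ℂ, Real.log (max 1 ‖τ a‖)) := by
      have h8 : ∑ τ : K →+* ℂ, Real.log (max 1 ‖τ a‖) ≤ (Module.finrank ℚ K : ℝ) *
          ∑ τ : K →+* ℂ, Real.log (max 1 ‖τ a‖) := by
        nlinarith
      linarith
    exact le_of_mul_le_mul_left h7 (by linarith)

end Pool.Agent.Helper25.HZ
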