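import Pool.Agent.Helper71.HN.SheetH
import Pool.Agent.Helper25.HN.Adic

/-!
Project HN, row PIV: an element of `K` which is not in `R` has a pole at a prime of `R`.
-/

set_option autoImplicit false

namespace Pool.Agent.Helper25.HN

open Pool.Agent.Helper71.JN Pool.Agent.Helper71.HN

/-- the abstract form: `K` is the field of fractions of the factorial ring `A`, the derivation `δ`
maps `A` to itself -/
theorem pole {A K : Type} [CommRing A] [IsDomain A] [UniqueFactorizationMonoid A] [Field K]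
    (φ : A →+* K) (hφ : Function.Injective φ)
    (hK : ∀ z : K, ∃ p q, q ≠ 0 ∧ z = φ p / φ q) (T : K) (hT : ∀ a, φ a ≠ T) :
    ∃ (ν : AbsoluteValue K ℝ) (P : K), (∀ a b, ν (a + b) ≤ max (ν a) (ν b)) ∧ P ≠ 0 ∧
      (∀ a, IsUnit a → ν (φ a) = 1) ∧
      (∀ δ : K → K, Dv δ → (∀ a, ∃ b, δ (φ a) = φ b) → Bd ν True (fun z => P * δ z)) ∧
      (∀ z, ν (P * z) < 1 → ν z ≤ 1) ∧ 1 < ν T := by
  have h0 : ∀ a, φ a = 0 → a = 0 := fun a h => hφ (h.trans (map_zero φ).symm)
  -- lowest terms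
  obtain ⟨A₁, B₁, hB₁, hT₁⟩ := hK T
  obtain ⟨a, b, c, hrel, hA, hB⟩ := UniqueFactorizationMonoid.exists_reduced_factors' A₁ B₁ hB₁
  have hc : c ≠ 0 := by
    rintro rfl
    exact hB₁ (by rw [← hB, zero_mul])
  have hb : b ≠ 0 := by
    rintro rfl
    exact hB₁ (by rw [← hB, mul_zero])
  have hcφ : φ c ≠ 0 := fun h => hc (h0 c h)
  have hbφ : φ b ≠ 0 := fun h => hb (h0 b h)
  have hTab : T = φ a / φ b := by
    rw [hT₁, ← hA, ← hB, map_mul, map_mul, mul_div_mul_left _ _ hcφ]
  have hbu : ¬ IsUnit b := by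
    intro hu
    obtain ⟨u, rfl⟩ := hu
    refine hT (a * ((u⁻¹ : Aˣ) : A)) ?_
    rw [hTab, map_mul, eq_div_iff hbφ, mul_assoc, ← map_mul, Units.inv_mul, map_one, mul_one]
  obtain ⟨π, hπi, hπb⟩ := WfDvdMonoid.exists_irreducible_factor hbu hb
  have hπ : Prime π := UniqueFactorizationMonoid.irreducible_iff_prime.1 hπi
  have hπa : ¬ π ∣ a := fun h => hπ.not_isUnit (hrel h hπb)
  obtain ⟨ν, hna, hint, hone, hval⟩ := adic φ hφ hK π hπ
  have hP : φ π ≠ 0 := fun h => hπ.ne_zero (h0 π h)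
  -- shape of elements
  have sh : ∀ a, a ≠ 0 → ∃ (n : ℕ) (u : A), a = π ^ n * u ∧ ν (φ u) = 1 := by
    intro a ha
    obtain ⟨u, h1, h2⟩ := (FiniteMultiplicity.of_prime_left hπ ha).exists_eq_pow_mul_and_not_dvd
    exact ⟨_, u, h1, hone u h2⟩
  have shz : ∀ z : K, z ≠ 0 → ∃ (n m : ℕ) (u v : A), ν (φ u) = 1 ∧ ν (φ v) = 1 ∧
      z * (φ π ^ m * φ v) = φ π ^ n * φ u := by
    intro z hz
    obtain ⟨p, q, hq, rfl⟩ := hK z
    have hqφ : φ q ≠ 0 := fun h => hq (h0 q h)
    have hp : p ≠ 0 := by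
      rintro rfl
      exact hz (by rw [map_zero, zero_div])
    obtain ⟨n, u, hu, hu1⟩ := sh p hp
    obtain ⟨m, v, hv, hv1⟩ := sh q hq
    refine ⟨n, m, u, v, hu1, hv1, ?_⟩
    rw [← map_pow, ← map_pow, ← map_mul, ← map_mul, ← hu, ← hv, div_mul_cancel₀ _ hqφ]
  have nuz : ∀ (z : K) (n m : ℕ) (u v : A), ν (φ u) = 1 → ν (φ v) = 1 →
      z * (φ π ^ m * φ v) = φ π ^ n * φ u → ν z * (1 / 2) ^ m = (1 / 2) ^ n := by
    intro z n m u v hu hv h
    have h2 := congrArg ν h
    rwa [map_mul, map_mul, map_mul, map_pow, map_pow, hu, hv, hval, mul_one, mul_one] at h2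
  have hhalf : ∀ n m : ℕ, ((1 / 2 : ℝ)) ^ n < (1 / 2) ^ m → m < n := by
    intro n m h
    by_contra hc
    exact absurd h (not_lt.2 (pow_le_pow_of_le_one (by norm_num) (by norm_num) (not_lt.1 hc)))
  refine ⟨ν, φ π, hna, hP, ?_, ?_, ?_, ?_⟩
  · intro u hu
    exact hone u fun h => hπ.not_isUnit (isUnit_of_dvd_unit h hu)
  · rintro δ ⟨hadd, hmul⟩ hδA
    have hδ0 : δ 0 = 0 := by
      have := hadd 0 0
      rw [add_zero] at this
      exact left_eq_add.1 this
    have hδint : ∀ a, ν (δ (φ a)) ≤ 1 := by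
      intro a
      obtain ⟨b, hb⟩ := hδA a
      rw [hb]; exact hint b
    have hpow : ∀ (n : ℕ) (u : A), ν (φ π * δ (φ π ^ n * φ u)) ≤ (1 / 2) ^ n := by
      intro n
      induction n with
      | zero =>
        intro u
        rw [pow_zero, one_mul, map_mul, hval, pow_zero]
        have := hδint u
        linarith
      | succ n ih =>
        intro u
        have e : φ π * δ (φ π ^ (n + 1) * φ u)
            = φ π * (φ π * δ (φ π ^ n * φ u)) + φ π ^ (n + 1) * φ u * δ (φ π) := by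
          rw [show φ π ^ (n + 1) * φ u = φ π * (φ π ^ n * φ u) by ring, hmul]
          ring
        rw [e]
        refine (hna _ _).trans (max_le ?_ ?_)
        · rw [map_mul, hval, pow_succ]
          have := ih u
          linarith
        · rw [map_mul, map_mul, map_pow, hval]
          have h1 := hint u
          have h2 := hδint π
          have h3 : ν (φ u) * ν (δ (φ π)) ≤ 1 := mul_le_one₀ h1 (ν.nonneg _) h2
          have h4 : (0 : ℝ) ≤ (1 / 2) ^ (n + 1) := by positivity
          calc (1 / 2 : ℝ) ^ (n + 1) * ν (φ u) * ν (δ (φ π))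
              = (1 / 2) ^ (n + 1) * (ν (φ u) * ν (δ (φ π))) := by ring
            _ ≤ (1 / 2) ^ (n + 1) * 1 := mul_le_mul_of_nonneg_left h3 h4
            _ = _ := mul_one _
    -- first bound
    have hfirst : ∀ z, ν (φ π * δ z) ≤ ν z := by
      intro z
      by_cases hz : z = 0
      · rw [hz, hδ0, mul_zero]
      obtain ⟨n, m, u, v, hu, hv, h⟩ := shz z hz
      have hnz := nuz z n m u v hu hv h
      have hpm : (0 : ℝ) < (1 / 2) ^ m := by positivity
      have e : φ π ^ m * φ v * (φ π * δ z)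
          = φ π * δ (φ π ^ n * φ u) + -(z * (φ π * δ (φ π ^ m * φ v))) := by
        rw [← h, hmul]
        ring
      have h1 : ν (φ π ^ m * φ v * (φ π * δ z)) ≤ (1 / 2) ^ n := by
        rw [e]
        refine (hna _ _).trans (max_le (hpow n u) ?_)
        rw [ν.map_neg, map_mul, ← hnz]
        exact mul_le_mul_of_nonneg_left (hpow m v) (ν.nonneg _)
      rw [map_mul ν (φ π ^ m * φ v), map_mul, map_pow, hval, hv, mul_one, ← hnz, mul_comm (ν z)]
        at h1
      exact le_of_mul_le_mul_left h1 hpm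
    refine ⟨hfirst, fun _ z hz1 => ?_⟩
    rcases lt_or_eq_of_le hz1 with hlt | heq
    · exact (hfirst z).trans_lt hlt
    have hz : z ≠ 0 := by
      rintro rfl
      rw [map_zero] at heq
      exact zero_ne_one heq
    obtain ⟨n, m, u, v, hu, hv, h⟩ := shz z hz
    have hnz := nuz z n m u v hu hv h
    rw [heq, one_mul] at hnz
    have hnm : n = m := by
      rcases lt_trichotomy n m with h1 | h1 | h1
      · exact absurd hnz.symm (ne_of_gt (pow_lt_pow_right_of_lt_one₀ (by norm_num) (by norm_num) h1))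
      · exact h1
      · exact absurd hnz (ne_of_gt (pow_lt_pow_right_of_lt_one₀ (by norm_num) (by norm_num) h1))
    subst hnm
    have h' : z * φ v = φ u := by
      have hpn : φ π ^ n ≠ 0 := pow_ne_zero _ hP
      apply mul_left_cancel₀ hpn
      rw [← h]; ring
    have e : φ v * δ z = δ (φ u) + -(z * δ (φ v)) := by
      rw [← h', hmul]; ring
    have h1 : ν (φ v * δ z) ≤ 1 := by
      rw [e]
      refine (hna _ _).trans (max_le (hδint u) ?_)
      rw [ν.map_neg, map_mul, heq, one_mul]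
      exact hδint v
    rw [map_mul, hv, one_mul] at h1
    change ν (φ π * δ z) < 1
    rw [map_mul, hval]
    linarith
  · intro z hz1
    by_cases hz : z = 0
    · rw [hz, map_zero]; exact zero_le_one
    obtain ⟨n, m, u, v, hu, hv, h⟩ := shz z hz
    have hnz := nuz z n m u v hu hv h
    rw [map_mul, hval] at hz1
    have hpm : (0 : ℝ) < (1 / 2) ^ m := by positivity
    have h1 : (1 / 2 : ℝ) ^ (n + 1) < (1 / 2) ^ m := by
      rw [pow_succ, ← hnz]
      nlinarith
    have h2 := hhalf _ _ h1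
    have h3 : (1 / 2 : ℝ) ^ n ≤ (1 / 2) ^ m :=
      pow_le_pow_of_le_one (by norm_num) (by norm_num) (by omega)
    rw [← hnz] at h3
    nlinarith
  · obtain ⟨b', hb'⟩ := hπb
    have h1 : ν (φ b) ≤ 1 / 2 := by
      rw [hb', map_mul, map_mul, hval]
      have := hint b'
      linarith
    have h2 : 0 < ν (φ b) := ν.pos hbφ
    rw [hTab, map_div₀, hone a hπa, lt_div_iff₀ h2]
    linarith

/-- (PIV) -/
theorem PIV (hRK : ST_RK) : ST_PIV := by
  intro F Ω _ _ _ _ I _ r D δ T hD hT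
  obtain ⟨-, -, -, -, -, -, hRKin, -, hev, -, -, hinj, hfrac, -⟩ := hRK F Ω I r D
  have hmem : ∀ p, D.ev p ∈ D.K := fun p => hRKin _ (hev p)
  let φ : MvPolynomial (Fin r) F →+* D.K :=
    { toFun := fun p => ⟨D.ev p, hmem p⟩
      map_one' := Subtype.ext (map_one _)
      map_mul' := fun a b => Subtype.ext (map_mul _ _ _)
      map_zero' := Subtype.ext (map_zero _)
      map_add' := fun a b => Subtype.ext (map_add _ _ _) }
  have hφv : ∀ p, ((φ p : D.K) : Ω) = D.ev p := fun _ => rfl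
  have hφ : Function.Injective φ := fun a b h => hinj (by rw [← hφv, h, hφv])
  have hK : ∀ z : D.K, ∃ p q, q ≠ 0 ∧ z = φ p / φ q := by
    intro z
    obtain ⟨p, q, hq, h⟩ := hfrac z z.2
    exact ⟨p, q, hq, Subtype.ext h⟩
  have hT' : ∀ a, φ a ≠ T := by
    intro a h
    exact hT (by rw [← h, hφv]; exact hev a)
  obtain ⟨ν, P, h1, h2, h3, h4, h5, h6⟩ := pole φ hφ hK T hT'
  have hC : ∀ c : F, algebraMap F D.K c = φ (MvPolynomial.C c) := by
    intro c
    apply Subtype.ext
    rw [hφv]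
    exact (MvPolynomial.aeval_C D.w c).symm
  have hcst : ∀ c : F, c ≠ 0 → ν (algebraMap F D.K c) = 1 := by
    intro c hc
    rw [hC]
    exact h3 _ ((isUnit_iff_ne_zero.2 hc).map MvPolynomial.C)
  haveI : CharZero F := (algebraMap F Ω).charZero
  refine ⟨ν, P, ⟨h1, fun q hq => ?_⟩, h2, hcst, fun k => h4 _ (hD.dv k) ?_, h5, h6⟩
  · rw [← map_ratCast (algebraMap F D.K) q]
    exact hcst _ (Rat.cast_ne_zero.2 hq)
  · intro a
    obtain ⟨hadd, hmul⟩ := hD.dv k
    have hδ0 : δ k 0 = 0 := by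
      have := hadd 0 0
      rw [add_zero] at this
      exact left_eq_add.1 this
    induction a using MvPolynomial.induction_on with
    | C c => exact ⟨0, by rw [← hC, hD.cst, map_zero]⟩
    | add p q hp hq =>
      obtain ⟨p', hp'⟩ := hp
      obtain ⟨q', hq'⟩ := hq
      exact ⟨p' + q', by rw [map_add, hadd, hp', hq', map_add]⟩
    | mul_X p n hp =>
      obtain ⟨p', hp'⟩ := hp
      have hX : ((φ (MvPolynomial.X n) : D.K) : Ω) = D.w n := by
        rw [hφv]; exact MvPolynomial.aeval_X D.w n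
      refine ⟨p * (if k = n then MvPolynomial.X n else 0) + MvPolynomial.X n * p', ?_⟩
      rw [map_mul, hmul, hp', hD.dw k n _ hX, map_add, map_mul, map_mul]
      split_ifs <;> simp

end Pool.Agent.Helper25.HN
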